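import Mathlib

/-!
# Riccati recursion for the corona problem on the ball of `ℂ²`: definitions and basic facts
-/

set_option autoImplicit false

open Complex MeasureTheory Set Filter Topology
open scoped ENNReal

namespace Pool.Agent.N290.RI

noncomputable section

/-- squared euclidean norm on `ℂ²` -/
def N (z : ℂ × ℂ) : ℝ := ‖z.1‖ ^ 2 + ‖z.2‖ ^ 2

/-- euclidean norm on `ℂ²` -/
def nm (z : ℂ × ℂ) : ℝ := Real.sqrt (N z)

/-- hermitian inner product -/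
def ip (z w : ℂ × ℂ) : ℂ := z.1 * starRingEnd ℂ w.1 + z.2 * starRingEnd ℂ w.2

/-- the open unit ball -/
def B : Set (ℂ × ℂ) := {z | N z < 1}

/-- squared length of `ξ` at `z` in the invariant metric -/
def len2 (z ξ : ℂ × ℂ) : ℝ := N ξ / (1 - N z) + ‖ip ξ z‖ ^ 2 / (1 - N z) ^ 2

/-- length of `ξ` at `z` in the invariant metric -/
def len (z ξ : ℂ × ℂ) : ℝ := Real.sqrt (len2 z ξ)

/-- `|1 - ⟨z, w⟩|² - (1 - |z|²) (1 - |w|²)` -/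
def Dl (z w : ℂ × ℂ) : ℝ := ‖1 - ip z w‖ ^ 2 - (1 - N z) * (1 - N w)

/-- the `∂̄`-derivative of `γ` at `z` in direction `ξ` -/
def db (γ : ℂ × ℂ → ℂ) (z ξ : ℂ × ℂ) : ℂ := (fderiv ℝ γ z ξ + I * fderiv ℝ γ z (I • ξ)) / 2

/-- the `∂`-derivative of `γ` at `z` in direction `ξ` -/
def dd (γ : ℂ × ℂ → ℂ) (z ξ : ℂ × ℂ) : ℂ := (fderiv ℝ γ z ξ - I * fderiv ℝ γ z (I • ξ)) / 2

/-- the `∂̄`-derivative in one variable -/
def db1 (γ : ℂ → ℂ) (z : ℂ) : ℂ := (fderiv ℝ γ z 1 + I * fderiv ℝ γ z I) / 2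

/-- the radii `1 - 2 ^ (-k)` -/
def rad (k : ℕ) : ℝ := 1 - (1 / 2) ^ k

/-- the kernel `Δ(z,w)^(-3/2)` -/
def ker (z w : ℂ × ℂ) : ℝ := 1 / Real.sqrt (Dl z w) ^ 3

/-- the involution of the ball which exchanges `0` and `(x, 0)` -/
def Ph (x : ℝ) (ξ : ℂ × ℂ) : ℂ × ℂ :=
  ((x - ξ.1) / (1 - x * ξ.1), -(Real.sqrt (1 - x ^ 2) * ξ.2) / (1 - x * ξ.1))

/-- its derivative -/
def dPh (x : ℝ) (ξ η : ℂ × ℂ) : ℂ × ℂ :=
  (-((1 - x ^ 2) * η.1) / (1 - x * ξ.1) ^ 2,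
    -(Real.sqrt (1 - x ^ 2) * (η.2 / (1 - x * ξ.1) + x * ξ.2 * η.1 / (1 - x * ξ.1) ^ 2)))

/-- the unitary map with first column `c` -/
def un (c : ℂ × ℂ) (ξ : ℂ × ℂ) : ℂ × ℂ :=
  (c.1 * ξ.1 - starRingEnd ℂ c.2 * ξ.2, c.2 * ξ.1 + starRingEnd ℂ c.1 * ξ.2)

theorem N_nonneg (z : ℂ × ℂ) : 0 ≤ N z := by unfold N; positivity

theorem nm_nonneg (z : ℂ × ℂ) : 0 ≤ nm z := Real.sqrt_nonneg _

theorem nm_sq (z : ℂ × ℂ) : nm z ^ 2 = N z := Real.sq_sqrt (N_nonneg z)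

theorem N_smul (t : ℝ) (z : ℂ × ℂ) : N (t • z) = t ^ 2 * N z := by
  simp only [N, Prod.smul_fst, Prod.smul_snd, norm_smul, Real.norm_eq_abs, mul_pow, sq_abs]
  ring

theorem N_smulc (t : ℂ) (z : ℂ × ℂ) : N (t • z) = ‖t‖ ^ 2 * N z := by
  simp only [N, Prod.smul_fst, Prod.smul_snd, norm_smul, mul_pow]
  ring

theorem nm_smul (t : ℝ) (ht : 0 ≤ t) (z : ℂ × ℂ) : nm (t • z) = t * nm z := by
  rw [nm, N_smul, Real.sqrt_mul (sq_nonneg t), Real.sqrt_sq ht, nm]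

theorem N_continuous : Continuous N := by unfold N; fun_prop

theorem B_open : IsOpen B := isOpen_lt N_continuous continuous_const

theorem B_meas : MeasurableSet B := B_open.measurableSet

theorem mem_B {z : ℂ × ℂ} : z ∈ B ↔ N z < 1 := Iff.rfl

theorem mem_B_nm {z : ℂ × ℂ} : z ∈ B ↔ nm z < 1 := by
  rw [mem_B, nm, Real.sqrt_lt' one_pos, one_pow]

theorem smul_mem_B {z : ℂ × ℂ} (hz : z ∈ B) {t : ℝ} (h0 : 0 ≤ t) (h1 : t ≤ 1) : t • z ∈ B := by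
  rw [mem_B, N_smul]
  have h2 : t ^ 2 ≤ 1 := pow_le_one₀ h0 h1
  have h3 := N_nonneg z
  have h4 : N z < 1 := hz
  nlinarith

theorem len_nonneg (z ξ : ℂ × ℂ) : 0 ≤ len z ξ := Real.sqrt_nonneg _

theorem len2_nonneg {z : ℂ × ℂ} (hz : z ∈ B) (ξ : ℂ × ℂ) : 0 ≤ len2 z ξ := by
  have h : 0 < 1 - N z := sub_pos.2 hz
  have := N_nonneg ξ
  unfold len2; positivity

theorem len_sq {z : ℂ × ℂ} (hz : z ∈ B) (ξ : ℂ × ℂ) : len z ξ ^ 2 = len2 z ξ :=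
  Real.sq_sqrt (len2_nonneg hz ξ)

theorem ip_self (z : ℂ × ℂ) : ip z z = (N z : ℂ) := by
  unfold ip N
  rw [Complex.mul_conj, Complex.mul_conj, Complex.normSq_eq_norm_sq, Complex.normSq_eq_norm_sq]
  push_cast; ring

theorem ip_smul_left (t : ℂ) (z w : ℂ × ℂ) : ip (t • z) w = t * ip z w := by
  simp only [ip, Prod.smul_fst, Prod.smul_snd, smul_eq_mul]; ring

theorem len_I (z ξ : ℂ × ℂ) : len z (I • ξ) = len z ξ := by
  unfold len len2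
  rw [N_smulc, ip_smul_left, norm_mul, Complex.norm_I]
  simp

theorem len_smulc {z : ℂ × ℂ} (t : ℂ) (ξ : ℂ × ℂ) : len z (t • ξ) = ‖t‖ * len z ξ := by
  unfold len len2
  rw [N_smulc, ip_smul_left, norm_mul]
  have : ‖t‖ ^ 2 * N ξ / (1 - N z) + (‖t‖ * ‖ip ξ z‖) ^ 2 / (1 - N z) ^ 2 =
      ‖t‖ ^ 2 * (N ξ / (1 - N z) + ‖ip ξ z‖ ^ 2 / (1 - N z) ^ 2) := by ring
  rw [this, Real.sqrt_mul (sq_nonneg _), Real.sqrt_sq (norm_nonneg _)]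

theorem len_smul {z : ℂ × ℂ} {t : ℝ} (ht : 0 ≤ t) (ξ : ℂ × ℂ) : len z (t • ξ) = t * len z ξ := by
  have h : t • ξ = (t : ℂ) • ξ := by
    ext <;> simp
  rw [h, len_smulc, Complex.norm_real, Real.norm_eq_abs, abs_of_nonneg ht]

theorem rad_nonneg (k : ℕ) : 0 ≤ rad k := by
  unfold rad
  have : (1 / 2 : ℝ) ^ k ≤ 1 := pow_le_one₀ (by norm_num) (by norm_num)
  linarith

theorem rad_lt_one (k : ℕ) : rad k < 1 := by
  unfold rad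
  have : (0 : ℝ) < (1 / 2 : ℝ) ^ k := by positivity
  linarith

end

end Pool.Agent.N290.RI
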