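import Mathlib
import Pool.Agent.N290.RI.Defs

/-!
# Regularisation of majorants
-/

set_option autoImplicit false

open Complex MeasureTheory Set Filter Topology
open scoped ENNReal

namespace Pool.Agent.N290.RI

/-- slowly varying majorants of two nondecreasing functions -/
def E1 : Prop := ∃ C : ℝ, 0 < C ∧ ∀ ω σ : ℝ → ℝ, Monotone ω → Monotone σ →
  (∀ t, 0 ≤ ω t ∧ ω t ≤ 1) → (∀ t, 0 ≤ σ t ∧ σ t ≤ 1) →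
  ∃ ω' σ' : ℝ → ℝ, Monotone ω' ∧ Monotone σ' ∧ (∀ t, 0 ≤ ω' t ∧ ω' t ≤ 1) ∧
    (∀ t, 0 ≤ σ' t ∧ σ' t ≤ 1) ∧
    (∀ t, 0 < t → t ≤ 1 → ω t ≤ ω' t ∧ σ t ≤ σ' t) ∧
    (∀ s t : ℝ, 0 < t → t ≤ s → s ≤ 1 →
      ω' s ≤ C * (s / t) ^ (1 / 8 : ℝ) * ω' t ∧ σ' s ≤ C * (s / t) ^ (1 / 8 : ℝ) * σ' t) ∧
    ∫⁻ t in Ioo (0 : ℝ) 1, ENNReal.ofReal (ω' t * (ω' t + σ' t) / t) ≤
      ENNReal.ofReal C * (1 + ∫⁻ t in Ioo (0 : ℝ) 1, ENNReal.ofReal (ω t * (ω t + σ t) / t))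

end Pool.Agent.N290.RI
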