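import Mathlib
import Pool.Agent.N290.RI.Defs

/-!
# Riccati recursion for the corona problem on the ball of `ℂ²`: statements of the parts
-/

set_option autoImplicit false

open Complex MeasureTheory Set Filter Topology
open scoped ENNReal

namespace Pool.Agent.N290.RI

/-- one-variable lemma -/
def C1 : Prop := ∀ (Γ : ℂ → ℂ) (ρ M : ℝ), 0 < ρ → ContDiffOn ℝ 1 Γ (Metric.ball 0 ρ) →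
  (∀ τ ∈ Metric.ball (0 : ℂ) ρ, ‖Γ τ‖ ≤ M) →
  ENNReal.ofReal ‖∫ τ in Metric.ball (0 : ℂ) ρ, ((‖τ‖ ^ 2 : ℝ) : ℂ) * (Γ τ - Γ 0)‖ ≤
    ∫⁻ τ in Metric.ball (0 : ℂ) ρ,
      ENNReal.ofReal (‖db1 Γ τ‖ * (ρ ^ 2 * (ρ ^ 2 - ‖τ‖ ^ 2) / ‖τ‖))

/-- slices, nonnegative functions -/
def C2a : Prop := ∀ F : ℂ × ℂ → ℝ≥0∞, Measurable F →
  ∫⁻ ξ in B, F ξ = ∫⁻ s : ℂ, ∫⁻ τ in Metric.ball (0 : ℂ) (Real.sqrt (1 + ‖s‖ ^ 2))⁻¹,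
    ENNReal.ofReal (‖τ‖ ^ 2) * F (τ, τ * s)

/-- slices, integrable functions -/
def C2b : Prop := ∀ F : ℂ × ℂ → ℂ, IntegrableOn F B →
  ∫ ξ in B, F ξ = ∫ s : ℂ, ∫ τ in Metric.ball (0 : ℂ) (Real.sqrt (1 + ‖s‖ ^ 2))⁻¹,
    ((‖τ‖ ^ 2 : ℝ) : ℂ) * F (τ, τ * s)

/-- estimate at the centre of the ball -/
def C2 : Prop := ∀ (Γ : ℂ × ℂ → ℂ) (M : ℝ) (e : ℂ × ℂ → ℝ), ContDiffOn ℝ 1 Γ B →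
  (∀ ξ ∈ B, ‖Γ ξ‖ ≤ M) → Measurable e → (∀ ξ ∈ B, 0 ≤ e ξ) →
  (∀ ξ ∈ B, ∀ η, ‖db Γ ξ η‖ ≤ e ξ * len ξ η) →
  ENNReal.ofReal ‖∫ ξ in B, (Γ ξ - Γ 0)‖ ≤ ∫⁻ ξ in B, ENNReal.ofReal (e ξ / nm ξ ^ 3)

/-- change of variables under the involution `Ph x` -/
def C3 : Prop := ∀ x : ℝ, 0 ≤ x → x < 1 →
  (∀ ξ ∈ B, Ph x ξ ∈ B) ∧
  (∀ F : ℂ × ℂ → ℝ≥0∞, Measurable F → ∫⁻ w in B, F w =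
    ∫⁻ ξ in B, ENNReal.ofReal ((1 - x ^ 2) ^ 3 / ‖1 - x * ξ.1‖ ^ 6) * F (Ph x ξ)) ∧
  (∀ F : ℂ × ℂ → ℂ, ∫ w in B, F w =
    ∫ ξ in B, (((1 - x ^ 2) ^ 3 / ‖1 - x * ξ.1‖ ^ 6 : ℝ) : ℂ) * F (Ph x ξ))

/-- unitary maps preserve the measure -/
def C4 : Prop := ∀ c : ℂ × ℂ, N c = 1 → MeasurePreserving (un c) ∧
  (∀ F : ℂ × ℂ → ℂ, ∫ w in B, F w = ∫ ξ in B, F (un c ξ)) ∧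
  (∀ F : ℂ × ℂ → ℝ≥0∞, ∫⁻ w in B, F w = ∫⁻ ξ in B, F (un c ξ))

/-- Bergman integrals of bounded functions are holomorphic -/
def C5 : Prop := ∀ (γ : ℂ × ℂ → ℂ) (M : ℝ), AEStronglyMeasurable γ (volume.restrict B) →
  (∀ ξ ∈ B, ‖γ ξ‖ ≤ M) →
  DifferentiableOn ℂ (fun z => ∫ w in B, γ w / (1 - ip z w) ^ 3) B

/-- the involution: derivative and invariance -/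
def C6 : Prop := ∀ x : ℝ, 0 ≤ x → x < 1 → ∀ ξ ∈ B,
  DifferentiableAt ℂ (Ph x) ξ ∧ (∀ η, fderiv ℂ (Ph x) ξ η = dPh x ξ η) ∧
  1 - N (Ph x ξ) = (1 - x ^ 2) * (1 - N ξ) / ‖1 - x * ξ.1‖ ^ 2 ∧
  (∀ η, len (Ph x ξ) (dPh x ξ η) = len ξ η) ∧
  1 - ip ((x : ℂ), 0) (Ph x ξ) = (1 - x ^ 2) / starRingEnd ℂ (1 - x * ξ.1) ∧
  Dl ((x : ℂ), 0) (Ph x ξ) = (1 - x ^ 2) ^ 2 * N ξ / ‖1 - x * ξ.1‖ ^ 2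

/-- the Bergman projection of a bounded function -/
def Cmain : Prop := ∀ (γ : ℂ × ℂ → ℂ) (M : ℝ) (e : ℂ × ℂ → ℝ), ContDiffOn ℝ 1 γ B →
  (∀ z ∈ B, ‖γ z‖ ≤ M) → Measurable e → (∀ z ∈ B, 0 ≤ e z) →
  (∀ z ∈ B, ∀ ξ, ‖db γ z ξ‖ ≤ e z * len z ξ) →
  ∃ H : ℂ × ℂ → ℂ, DifferentiableOn ℂ H B ∧ ∀ z ∈ B,
    ENNReal.ofReal ‖γ z - H z‖ ≤ ∫⁻ w in B, ENNReal.ofReal (e w * ker z w)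

/-- the kernel is locally bounded in `L¹` -/
def C8 : Prop := ∀ r : ℝ, 0 ≤ r → r < 1 → ∃ C : ℝ, ∀ z, nm z ≤ r →
  ∫⁻ w in B, ENNReal.ofReal (ker z w) ≤ ENNReal.ofReal C

/-- integrals of functions of `1 - |w|²` -/
def C9 : Prop := ∃ C : ℝ, 0 < C ∧ ∀ φ : ℝ → ℝ, Monotone φ → (∀ t, 0 ≤ φ t) → (∀ t, φ t ≤ 1) →
  ∀ z ∈ B, ∫⁻ w in B, ENNReal.ofReal (φ (1 - N w) * ker z w) ≤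
    ENNReal.ofReal C * (1 + ∫⁻ t in Ioo (0 : ℝ) 1, ENNReal.ofReal (φ t / t))

/-- one step of the recursion -/
def S1 : Prop := ∀ (C₁ p : ℝ) (v P0 P1 F0 F1 : ℂ × ℂ → ℂ) (z ξ : ℂ × ℂ), 0 < C₁ →
  DifferentiableAt ℝ v z → DifferentiableAt ℝ P1 z → DifferentiableAt ℂ F0 z →
  DifferentiableAt ℂ F1 z → ‖v z‖ ≤ 256 * C₁ → ‖P0 z‖ ≤ C₁ → ‖P1 z‖ ≤ C₁ →
  ‖F1 z - F0 z‖ ≤ 2 → ‖fderiv ℝ P1 z ξ‖ ≤ p → ‖fderiv ℝ P1 z (I • ξ)‖ ≤ p →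
  ∀ Q v' : ℂ × ℂ → ℂ, (∀ w, Q w = P1 w * starRingEnd ℂ (F1 w - F0 w)) →
  (∀ w, v' w = (v w + Q w) / (1 + starRingEnd ℂ (Q w) * v w / (256 * C₁) ^ 2)) →
  ‖v' z‖ ≤ 256 * C₁ ∧ 1 + starRingEnd ℂ (Q z) * v z / (256 * C₁) ^ 2 ≠ 0 ∧
  ‖db v' z ξ - P1 z * starRingEnd ℂ (fderiv ℂ F1 z ξ)‖ ≤
    (1 + ‖F1 z - F0 z‖ / 64) * ‖db v z ξ - P0 z * starRingEnd ℂ (fderiv ℂ F0 z ξ)‖ +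
    ‖F1 z - F0 z‖ * (C₁ * (‖fderiv ℂ F0 z ξ‖ + ‖fderiv ℂ F1 z ξ‖) + 4 * p) +
    ‖P0 z - P1 z‖ * ‖fderiv ℂ F0 z ξ‖

/-- comparison of lengths along rays -/
def S2 : Prop := ∀ z ∈ B, ∀ t : ℝ, 0 ≤ t → t ≤ 1 →
  (∀ ξ, len (t • z) ξ ≤ Real.sqrt 2 * Real.sqrt ((1 - nm z) / (1 - t * nm z)) * len z ξ) ∧
  len (t • z) z ≤ nm z / (1 - t * nm z)

/-- mean value estimate along rays -/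
def S3 : Prop := ∀ (φ : ℂ × ℂ → ℂ) (z : ℂ × ℂ) (t₀ t₁ A : ℝ), DifferentiableOn ℝ φ B → z ∈ B →
  0 ≤ t₀ → t₀ ≤ t₁ → t₁ ≤ 1 →
  (∀ t, t₀ ≤ t → t ≤ t₁ → ∀ ξ, ‖fderiv ℝ φ (t • z) ξ‖ ≤ A * len (t • z) ξ) →
  ‖φ (t₁ • z) - φ (t₀ • z)‖ ≤ A * ((t₁ - t₀) * nm z / (1 - t₁ * nm z))

/-- the recursion -/
def Smain : Prop := ∀ (K C₁ : ℝ), 1 ≤ K → 0 < C₁ → ∃ C₂ : ℝ, 0 < C₂ ∧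
  ∀ (f Ψ : ℂ × ℂ → ℂ) (a b : ℂ × ℂ → ℝ), DifferentiableOn ℂ f B → ContDiffOn ℝ 1 Ψ B →
  (∀ z ∈ B, ‖f z‖ ≤ 1) → (∀ z ∈ B, ‖Ψ z‖ ≤ C₁) →
  (∀ z ∈ B, 0 ≤ a z ∧ a z ≤ 1) → (∀ z ∈ B, 0 ≤ b z ∧ b z ≤ 1) →
  (∀ z ∈ B, ∀ ξ, ‖fderiv ℂ f z ξ‖ ≤ a z * len z ξ) →
  (∀ z ∈ B, ∀ ξ, ‖fderiv ℝ Ψ z ξ‖ ≤ C₁ * ((a z + b z) * len z ξ)) →
  (∀ z ∈ B, ∀ t : ℝ, 0 ≤ t → t ≤ 1 →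
    a (t • z) ≤ K * ((1 - t * nm z) / (1 - nm z)) ^ (1 / 8 : ℝ) * a z) →
  (∀ z ∈ B, ∀ t : ℝ, 0 ≤ t → t ≤ 1 →
    b (t • z) ≤ K * ((1 - t * nm z) / (1 - nm z)) ^ (1 / 8 : ℝ) * b z) →
  ∀ k : ℕ, ∃ v : ℂ × ℂ → ℂ, ContDiffOn ℝ 1 v B ∧ (∀ z ∈ B, ‖v z‖ ≤ 256 * C₁) ∧
    ∀ z ∈ B, ∀ ξ, ‖db v z ξ - Ψ (rad k • z) * starRingEnd ℂ (fderiv ℂ f (rad k • z) (rad k • ξ))‖ ≤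
      C₂ * (a z * (a z + b z)) * len z ξ

/-- cut-offs in the plane -/
def D0 : Prop := ∀ δ : ℝ, 0 < δ → ∃ (χ ψ : ℂ → ℂ) (C : ℝ), ContDiff ℝ 1 χ ∧ ContDiff ℝ 1 ψ ∧
  (∀ w, ‖w‖ ≤ δ / 4 → χ w = 1) ∧ (∀ w, δ / 2 ≤ ‖w‖ → χ w = 0) ∧ (∀ w, ‖χ w‖ ≤ 1) ∧
  (∀ w, δ / 2 ≤ ‖w‖ → ψ w = 0) ∧ (∀ w, ‖ψ w‖ ≤ C) ∧
  (∀ w η, ‖fderiv ℝ ψ w η‖ ≤ C * ‖η‖) ∧ ∀ w, db1 χ w = w * ψ w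

/-- the smooth solution of the Bezout equation -/
def D2 : Prop := ∀ δ : ℝ, 0 < δ → ∃ C₁ : ℝ, 0 < C₁ ∧ ∀ (f g : ℂ × ℂ → ℂ),
  DifferentiableOn ℂ f B → DifferentiableOn ℂ g B →
  (∀ z ∈ B, ‖f z‖ ≤ 1) → (∀ z ∈ B, ‖g z‖ ≤ 1) → (∀ z ∈ B, δ ≤ ‖f z‖ + ‖g z‖) →
  ∃ Ψ h₀ k₀ : ℂ × ℂ → ℂ, ContDiffOn ℝ 1 Ψ B ∧ ContDiffOn ℝ 1 h₀ B ∧ ContDiffOn ℝ 1 k₀ B ∧
    (∀ z ∈ B, ‖Ψ z‖ ≤ C₁ ∧ ‖h₀ z‖ ≤ C₁ ∧ ‖k₀ z‖ ≤ C₁ ∧ f z * h₀ z + g z * k₀ z = 1) ∧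
    (∀ z ∈ B, ∀ ξ, ‖fderiv ℝ Ψ z ξ‖ ≤ C₁ * (‖fderiv ℂ f z ξ‖ + ‖fderiv ℂ g z ξ‖)) ∧
    (∀ z ∈ B, ∀ ξ, db h₀ z ξ = -(g z * (Ψ z * starRingEnd ℂ (fderiv ℂ f z ξ)))) ∧
    (∀ z ∈ B, ∀ ξ, db k₀ z ξ = f z * (Ψ z * starRingEnd ℂ (fderiv ℂ f z ξ)))

/-- qualitative solutions for dilated data -/
def D1 : Prop := ∀ (δ r : ℝ) (f g : ℂ × ℂ → ℂ), 0 < δ → 0 ≤ r → r < 1 →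
  DifferentiableOn ℂ f B → DifferentiableOn ℂ g B →
  (∀ z ∈ B, ‖f z‖ ≤ 1) → (∀ z ∈ B, ‖g z‖ ≤ 1) → (∀ z ∈ B, δ ≤ ‖f z‖ + ‖g z‖) →
  ∃ (h k : ℂ × ℂ → ℂ) (M : ℝ), DifferentiableOn ℂ h B ∧ DifferentiableOn ℂ k B ∧
    ∀ z ∈ B, ‖h z‖ ≤ M ∧ ‖k z‖ ≤ M ∧ f (r • z) * h z + g (r • z) * k z = 1

/-- the Schwarz-Pick lemma on the ball -/
def SP : Prop := ∀ f : ℂ × ℂ → ℂ, DifferentiableOn ℂ f B → (∀ z ∈ B, ‖f z‖ ≤ 1) →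
  ∀ z ∈ B, ∀ ξ, ‖fderiv ℂ f z ξ‖ ≤ len z ξ

/-- limits of families with locally bounded majorants -/
def D4 : Prop := ∀ (M : ℂ × ℂ → ℝ≥0∞), (∀ r : ℝ, 0 ≤ r → r < 1 → ∃ C : ℝ, ∀ z, nm z ≤ r →
    M z ≤ ENNReal.ofReal C) →
  ∀ (f g : ℂ × ℂ → ℂ), DifferentiableOn ℂ f B → DifferentiableOn ℂ g B →
  (∀ k : ℕ, ∃ h l : ℂ × ℂ → ℂ, DifferentiableOn ℂ h B ∧ DifferentiableOn ℂ l B ∧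
    ∀ z ∈ B, f (rad k • z) * h z + g (rad k • z) * l z = 1 ∧
      ENNReal.ofReal ‖h z‖ ≤ M z ∧ ENNReal.ofReal ‖l z‖ ≤ M z) →
  ∃ h l : ℂ × ℂ → ℂ, DifferentiableOn ℂ h B ∧ DifferentiableOn ℂ l B ∧
    ∀ z ∈ B, f z * h z + g z * l z = 1 ∧ ENNReal.ofReal ‖h z‖ ≤ M z ∧ ENNReal.ofReal ‖l z‖ ≤ M z

end Pool.Agent.N290.RI
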