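import Mathlib
import Pool.Agent.N290.RI.Defs

/-!
# Unitary maps of `ℂ²`: algebraic facts
-/

set_option autoImplicit false

open Complex MeasureTheory Set Filter Topology

namespace Pool.Agent.N290.RI

theorem cc (a : ℂ) : a * starRingEnd ℂ a = ((‖a‖ ^ 2 : ℝ) : ℂ) := by
  rw [Complex.mul_conj, Complex.normSq_eq_norm_sq]

theorem ip_un {c : ℂ × ℂ} (hc : N c = 1) (ξ η : ℂ × ℂ) : ip (un c ξ) (un c η) = ip ξ η := by
  have h : c.1 * starRingEnd ℂ c.1 + c.2 * starRingEnd ℂ c.2 = 1 := by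
    rw [cc, cc, ← Complex.ofReal_add]
    unfold N at hc
    rw [hc]; simp
  simp only [ip, un, map_sub, map_add, map_mul, Complex.conj_conj]
  linear_combination (ξ.1 * starRingEnd ℂ η.1 + ξ.2 * starRingEnd ℂ η.2) * h

theorem N_un {c : ℂ × ℂ} (hc : N c = 1) (ξ : ℂ × ℂ) : N (un c ξ) = N ξ := by
  have h := ip_un hc ξ ξ
  rw [ip_self, ip_self] at h
  exact_mod_cast h

theorem nm_un {c : ℂ × ℂ} (hc : N c = 1) (ξ : ℂ × ℂ) : nm (un c ξ) = nm ξ := by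
  rw [nm, nm, N_un hc]

theorem mem_B_un {c : ℂ × ℂ} (hc : N c = 1) (ξ : ℂ × ℂ) : un c ξ ∈ B ↔ ξ ∈ B := by
  rw [mem_B, mem_B, N_un hc]

theorem len_un {c : ℂ × ℂ} (hc : N c = 1) (z ξ : ℂ × ℂ) : len (un c z) (un c ξ) = len z ξ := by
  unfold len len2
  rw [N_un hc, N_un hc, ip_un hc]

theorem Dl_un {c : ℂ × ℂ} (hc : N c = 1) (z ξ : ℂ × ℂ) : Dl (un c z) (un c ξ) = Dl z ξ := by
  unfold Dl
  rw [N_un hc, N_un hc, ip_un hc]

theorem ker_un {c : ℂ × ℂ} (hc : N c = 1) (z ξ : ℂ × ℂ) : ker (un c z) (un c ξ) = ker z ξ := by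
  unfold ker
  rw [Dl_un hc]

/-- every point is the image of a point `(x, 0)`, `x ≥ 0` -/
theorem exists_un (z : ℂ × ℂ) : ∃ c : ℂ × ℂ, N c = 1 ∧ un c ((nm z : ℂ), 0) = z := by
  by_cases h : nm z = 0
  · refine ⟨(1, 0), by simp [N], ?_⟩
    have h1 : N z = 0 := by rw [← nm_sq, h]; norm_num
    unfold N at h1
    have h2 : ‖z.1‖ ^ 2 = 0 := by nlinarith [sq_nonneg ‖z.1‖, sq_nonneg ‖z.2‖]
    have h3 : ‖z.2‖ ^ 2 = 0 := by nlinarith [sq_nonneg ‖z.1‖, sq_nonneg ‖z.2‖]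
    rw [sq_eq_zero_iff, norm_eq_zero] at h2 h3
    rw [h]
    ext <;> simp [un, h2, h3]
  · refine ⟨((nm z : ℂ)⁻¹ * z.1, (nm z : ℂ)⁻¹ * z.2), ?_, ?_⟩
    · have h1 := nm_sq z
      unfold N at h1 ⊢
      simp only [norm_mul, norm_inv, Complex.norm_real, Real.norm_eq_abs,
        abs_of_nonneg (nm_nonneg z), mul_pow]
      rw [← mul_add, ← h1]
      field_simp
    · have h1 : (nm z : ℂ) ≠ 0 := by exact_mod_cast h
      ext
      · simp only [un]; field_simp; simp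
      · simp only [un]; field_simp; simp

/-- the unitary map as a linear map -/
noncomputable def unL (c : ℂ × ℂ) : (ℂ × ℂ) →L[ℂ] (ℂ × ℂ) :=
  (c.1 • ContinuousLinearMap.fst ℂ ℂ ℂ - starRingEnd ℂ c.2 • ContinuousLinearMap.snd ℂ ℂ ℂ).prod
    (c.2 • ContinuousLinearMap.fst ℂ ℂ ℂ + starRingEnd ℂ c.1 • ContinuousLinearMap.snd ℂ ℂ ℂ)

theorem unL_apply (c ξ : ℂ × ℂ) : unL c ξ = un c ξ := by
  simp [unL, un]

theorem un_hasFDerivAt (c ξ : ℂ × ℂ) : HasFDerivAt (un c) (unL c) ξ := by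
  have h : un c = unL c := by ext x <;> simp [unL_apply]
  rw [h]
  exact (unL c).hasFDerivAt

theorem un_smul (c ξ : ℂ × ℂ) (t : ℂ) : un c (t • ξ) = t • un c ξ := by
  rw [← unL_apply, map_smul, unL_apply]

/-- chain rule for `∂̄` and a holomorphic inner map -/
theorem db_comp {γ : ℂ × ℂ → ℂ} {φ : ℂ × ℂ → ℂ × ℂ} {z : ℂ × ℂ} (hφ : DifferentiableAt ℂ φ z)
    (hγ : DifferentiableAt ℝ γ (φ z)) (ξ : ℂ × ℂ) :
    db (fun w => γ (φ w)) z ξ = db γ (φ z) (fderiv ℂ φ z ξ) := by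
  have h1 : HasFDerivAt φ ((fderiv ℂ φ z).restrictScalars ℝ) z :=
    hφ.hasFDerivAt.restrictScalars ℝ
  have h2 : HasFDerivAt (fun w => γ (φ w)) ((fderiv ℝ γ (φ z)).comp
      ((fderiv ℂ φ z).restrictScalars ℝ)) z := hγ.hasFDerivAt.comp z h1
  unfold db
  rw [h2.fderiv]
  simp only [ContinuousLinearMap.comp_apply, ContinuousLinearMap.coe_restrictScalars', map_smul]

/-- `∂̄` of a holomorphic function vanishes -/
theorem db_hol {γ : ℂ × ℂ → ℂ} {z : ℂ × ℂ} (h : DifferentiableAt ℂ γ z) (ξ : ℂ × ℂ) :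
    db γ z ξ = 0 := by
  unfold db
  rw [h.fderiv_restrictScalars ℝ]
  simp only [ContinuousLinearMap.coe_restrictScalars', map_smul, smul_eq_mul]
  rw [← mul_assoc, Complex.I_mul_I]; ring

theorem db_add {γ η : ℂ × ℂ → ℂ} {z : ℂ × ℂ} (h : DifferentiableAt ℝ γ z)
    (h' : DifferentiableAt ℝ η z) (ξ : ℂ × ℂ) :
    db (fun w => γ w + η w) z ξ = db γ z ξ + db η z ξ := by
  unfold db
  rw [fderiv_fun_add h h']
  simp only [ContinuousLinearMap.add_apply]; ring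

theorem db_sub {γ η : ℂ × ℂ → ℂ} {z : ℂ × ℂ} (h : DifferentiableAt ℝ γ z)
    (h' : DifferentiableAt ℝ η z) (ξ : ℂ × ℂ) :
    db (fun w => γ w - η w) z ξ = db γ z ξ - db η z ξ := by
  unfold db
  rw [fderiv_fun_sub h h']
  simp only [ContinuousLinearMap.sub_apply]; ring

theorem db_mul {γ η : ℂ × ℂ → ℂ} {z : ℂ × ℂ} (h : DifferentiableAt ℝ γ z)
    (h' : DifferentiableAt ℝ η z) (ξ : ℂ × ℂ) :
    db (fun w => γ w * η w) z ξ = γ z * db η z ξ + η z * db γ z ξ := by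
  unfold db
  rw [fderiv_fun_mul h h']
  simp only [ContinuousLinearMap.add_apply, ContinuousLinearMap.smul_apply, smul_eq_mul]; ring

theorem db_congr {γ η : ℂ × ℂ → ℂ} {z : ℂ × ℂ} (h : γ =ᶠ[𝓝 z] η) (ξ : ℂ × ℂ) :
    db γ z ξ = db η z ξ := by
  unfold db
  rw [h.fderiv_eq]

end Pool.Agent.N290.RI
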