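import Mathlib
import Pool.Agent.N290.RI.Stm
import Pool.Agent.N290.RI.Stm2
import Pool.Agent.N290.RI.Un
import Pool.Agent.N290.RI.Sm

/-!
# Assembly
-/

set_option autoImplicit false

open Complex MeasureTheory Set Filter Topology
open scoped ENNReal

namespace Pool.Agent.N290.RI

/-- `∂̄` of a dilation -/
theorem db_dil {f : ℂ × ℂ → ℂ} {z : ℂ × ℂ} {r : ℝ} (hf : DifferentiableAt ℝ f (r • z))
    (ξ : ℂ × ℂ) : db (fun w => f (r • w)) z ξ = db f (r • z) (r • ξ) := by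
  unfold db
  rw [dil_fderivR hf, dil_fderivR hf, smul_comm r I ξ]

/-- solution for fixed radius -/
theorem D3 (hC : Cmain) {C₁ R r M : ℝ} {f g Ψ h₀ k₀ v hs ks : ℂ × ℂ → ℂ} {e : ℂ × ℂ → ℝ}
    (hr0 : 0 ≤ r) (hr1 : r ≤ 1) (hR : 0 ≤ R) (hC₁ : 0 ≤ C₁)
    (hf : DifferentiableOn ℂ f B) (hg : DifferentiableOn ℂ g B)
    (hf1 : ∀ z ∈ B, ‖f z‖ ≤ 1) (hg1 : ∀ z ∈ B, ‖g z‖ ≤ 1)
    (hh₀ : ContDiffOn ℝ 1 h₀ B) (hk₀ : ContDiffOn ℝ 1 k₀ B)
    (hb : ∀ z ∈ B, ‖Ψ z‖ ≤ C₁ ∧ ‖h₀ z‖ ≤ C₁ ∧ ‖k₀ z‖ ≤ C₁ ∧ f z * h₀ z + g z * k₀ z = 1)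
    (hdh : ∀ z ∈ B, ∀ ξ, db h₀ z ξ = -(g z * (Ψ z * starRingEnd ℂ (fderiv ℂ f z ξ))))
    (hdk : ∀ z ∈ B, ∀ ξ, db k₀ z ξ = f z * (Ψ z * starRingEnd ℂ (fderiv ℂ f z ξ)))
    (hv : ContDiffOn ℝ 1 v B) (hvb : ∀ z ∈ B, ‖v z‖ ≤ R)
    (he : Measurable e) (he0 : ∀ z ∈ B, 0 ≤ e z)
    (hve : ∀ z ∈ B, ∀ ξ, ‖db v z ξ - Ψ (r • z) *
      starRingEnd ℂ (fderiv ℂ f (r • z) (r • ξ))‖ ≤ e z * len z ξ)
    (hhs : DifferentiableOn ℂ hs B) (hks : DifferentiableOn ℂ ks B)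
    (hs1 : ∀ z ∈ B, ‖hs z‖ ≤ M ∧ ‖ks z‖ ≤ M ∧ f (r • z) * hs z + g (r • z) * ks z = 1) :
    ∃ h k : ℂ × ℂ → ℂ, DifferentiableOn ℂ h B ∧ DifferentiableOn ℂ k B ∧ ∀ z ∈ B,
      f (r • z) * h z + g (r • z) * k z = 1 ∧
      ENNReal.ofReal ‖h z‖ ≤ ENNReal.ofReal (C₁ + R) + ∫⁻ w in B, ENNReal.ofReal (e w * ker z w) ∧
      ENNReal.ofReal ‖k z‖ ≤ ENNReal.ofReal (C₁ + R) +
        ∫⁻ w in B, ENNReal.ofReal (e w * ker z w) := by
  have hmem : ∀ z ∈ B, r • z ∈ B := fun z hz => smul_mem_B hz hr0 hr1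
  have hM : 0 ≤ M := by
    have h0 : (0 : ℂ × ℂ) ∈ B := by rw [mem_B]; simp [N]
    exact (norm_nonneg _).trans (hs1 0 h0).1
  set γ : ℂ × ℂ → ℂ := fun z => v z - (k₀ (r • z) * hs z - h₀ (r • z) * ks z) with hγ
  have hk₀r := cd_dil hk₀ hr0 hr1
  have hh₀r := cd_dil hh₀ hr0 hr1
  have hγc : ContDiffOn ℝ 1 γ B :=
    hv.sub ((hk₀r.mul (cd_hol hhs)).sub (hh₀r.mul (cd_hol hks)))
  have hda : ∀ {F : ℂ × ℂ → ℂ}, ContDiffOn ℝ 1 F B → ∀ z ∈ B, DifferentiableAt ℝ F z :=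
    fun hF z hz => (hF.differentiableOn (by norm_num)).differentiableAt (B_open.mem_nhds hz)
  have hγb : ∀ z ∈ B, ‖γ z‖ ≤ R + (C₁ * M + C₁ * M) := by
    intro z hz
    have h1 := hb _ (hmem z hz)
    refine (norm_sub_le _ _).trans (add_le_add (hvb z hz) ((norm_sub_le _ _).trans ?_))
    rw [norm_mul, norm_mul]
    exact add_le_add (mul_le_mul h1.2.2.1 (hs1 z hz).1 (norm_nonneg _) hC₁)
      (mul_le_mul h1.2.1 (hs1 z hz).2.1 (norm_nonneg _) hC₁)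
  have hγd : ∀ z ∈ B, ∀ ξ, ‖db γ z ξ‖ ≤ e z * len z ξ := by
    intro z hz ξ
    have h1 : db γ z ξ = db v z ξ - Ψ (r • z) *
        starRingEnd ℂ (fderiv ℂ f (r • z) (r • ξ)) := by
      have hvz := hda hv z hz
      have hkz := hda hk₀r z hz
      have hhz := hda hh₀r z hz
      have hsz := hda (cd_hol hhs) z hz
      have hksz := hda (cd_hol hks) z hz
      rw [hγ, db_sub hvz ((hkz.fun_mul hsz).fun_sub (hhz.fun_mul hksz)),
        db_sub (hkz.fun_mul hsz) (hhz.fun_mul hksz),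
        db_mul hkz hsz, db_mul hhz hksz, db_hol (da_hol hhs hz), db_hol (da_hol hks hz),
        db_dil (hda hk₀ _ (hmem z hz)), db_dil (hda hh₀ _ (hmem z hz)), hdh _ (hmem z hz),
        hdk _ (hmem z hz)]
      linear_combination (-(Ψ (r • z) * starRingEnd ℂ (fderiv ℂ f (r • z) (r • ξ)))) * (hs1 z hz).2.2
    rw [h1]
    exact hve z hz ξ
  obtain ⟨H, hH, hHb⟩ := hC γ _ e hγc hγb he he0 hγd
  refine ⟨fun z => hs z + g (r • z) * H z, fun z => ks z - f (r • z) * H z, ?_, ?_, ?_⟩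
  · refine hhs.add (DifferentiableOn.mul ?_ hH)
    intro z hz
    exact (dil_hasFDerivAt (da_hol hg (hmem z hz))).differentiableAt.differentiableWithinAt
  · refine hks.sub (DifferentiableOn.mul ?_ hH)
    intro z hz
    exact (dil_hasFDerivAt (da_hol hf (hmem z hz))).differentiableAt.differentiableWithinAt
  · intro z hz
    have h1 := hb _ (hmem z hz)
    have h2 := (hs1 z hz).2.2
    have hbd : ∀ q c : ℂ, ‖q‖ ≤ 1 → ‖c‖ ≤ C₁ →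
        ENNReal.ofReal ‖c + q * (v z - (γ z - H z))‖ ≤ ENNReal.ofReal (C₁ + R) +
          ∫⁻ w in B, ENNReal.ofReal (e w * ker z w) := by
      intro q c hq hc
      have h3 : ‖c + q * (v z - (γ z - H z))‖ ≤ (C₁ + R) + ‖γ z - H z‖ := by
        have h4 : ‖v z - (γ z - H z)‖ ≤ R + ‖γ z - H z‖ :=
          (norm_sub_le _ _).trans (add_le_add (hvb z hz) le_rfl)
        have h5 : ‖q * (v z - (γ z - H z))‖ ≤ 1 * (R + ‖γ z - H z‖) := by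
          rw [norm_mul]
          exact mul_le_mul hq h4 (norm_nonneg _) zero_le_one
        have h6 := norm_add_le c (q * (v z - (γ z - H z)))
        linarith
      refine (ENNReal.ofReal_le_ofReal h3).trans ?_
      rw [ENNReal.ofReal_add (by positivity) (norm_nonneg _)]
      exact add_le_add le_rfl (hHb z hz)
    refine ⟨?_, ?_, ?_⟩
    · linear_combination h2
    · have h3 : hs z + g (r • z) * H z = h₀ (r • z) + g (r • z) * (v z - (γ z - H z)) := by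
        simp only [hγ]
        linear_combination h₀ (r • z) * h2 - hs z * h1.2.2.2
      show ENNReal.ofReal ‖hs z + g (r • z) * H z‖ ≤ _
      rw [h3]
      exact hbd _ _ (hg1 _ (hmem z hz)) h1.2.1
    · have h3 : ks z - f (r • z) * H z = k₀ (r • z) + (-f (r • z)) * (v z - (γ z - H z)) := by
        simp only [hγ]
        linear_combination k₀ (r • z) * h2 - ks z * h1.2.2.2
      show ENNReal.ofReal ‖ks z - f (r • z) * H z‖ ≤ _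
      rw [h3]
      exact hbd _ _ (by rw [norm_neg]; exact hf1 _ (hmem z hz)) h1.2.2.1

/-- the quadratic area integral -/
noncomputable def JJ (a b : ℂ × ℂ → ℝ) (z : ℂ × ℂ) : ℝ≥0∞ :=
  ∫⁻ w in B, ENNReal.ofReal (a w * (a w + b w) * ker z w)

theorem ker_nonneg (z w : ℂ × ℂ) : 0 ≤ ker z w := by
  unfold ker; positivity

theorem JJ_mono {a b a' b' : ℂ × ℂ → ℝ} (z : ℂ × ℂ) (h0 : ∀ w ∈ B, 0 ≤ a w) (h0' : ∀ w ∈ B, 0 ≤ b w)
    (h1 : ∀ w ∈ B, a w ≤ a' w) (h2 : ∀ w ∈ B, b w ≤ b' w) : JJ a b z ≤ JJ a' b' z := by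
  refine setLIntegral_mono' B_meas fun w hw => ENNReal.ofReal_le_ofReal ?_
  have h3 := h0 w hw
  have h4 := h0' w hw
  have h5 := h1 w hw
  have h6 := h2 w hw
  refine mul_le_mul_of_nonneg_right ?_ (ker_nonneg _ _)
  exact mul_le_mul h5 (by linarith) (by linarith) (by linarith)

theorem reg_min {c : ℂ × ℂ → ℝ} {K : ℝ} {z : ℂ × ℂ} (hz : z ∈ B) (hc : 0 ≤ c z) {t : ℝ}
    (ht1 : t ≤ 1)
    (h : c (t • z) ≤ K * ((1 - t * nm z) / (1 - nm z)) ^ (1 / 8 : ℝ) * c z) :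
    min (c (t • z)) 1 ≤ max K 1 * ((1 - t * nm z) / (1 - nm z)) ^ (1 / 8 : ℝ) * min (c z) 1 := by
  have hx := x_pos hz
  have hr := r_pos hz ht1
  have h1 : 1 ≤ ((1 - t * nm z) / (1 - nm z)) ^ (1 / 8 : ℝ) := by
    refine Real.one_le_rpow ?_ (by norm_num)
    rw [one_le_div hx]
    have := tn_le (z := z) ht1
    linarith
  set ρ := ((1 - t * nm z) / (1 - nm z)) ^ (1 / 8 : ℝ)
  have hρ0 : 0 ≤ ρ := by linarith
  have hK : K ≤ max K 1 := le_max_left _ _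
  have hK1 : 1 ≤ max K 1 := le_max_right _ _
  have h2 : 1 ≤ max K 1 * ρ := by nlinarith
  rcases le_total (c z) 1 with h3 | h3
  · rw [min_eq_left h3]
    refine (min_le_left _ _).trans (h.trans ?_)
    exact mul_le_mul_of_nonneg_right (mul_le_mul_of_nonneg_right hK hρ0) hc
  · rw [min_eq_right h3, mul_one]
    exact (min_le_right _ _).trans h2

/-- the bounds for one function -/
theorem main_of (hC : Cmain) (hS : Smain) (h8 : C8) (hD2 : D2) (hD1 : D1) (hD4 : D4) (hSP : SP)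
    (δ K : ℝ) (hδ : 0 < δ) : ∃ C : ℝ, 0 < C ∧ ∀ (f g : ℂ × ℂ → ℂ) (a b : ℂ × ℂ → ℝ),
    DifferentiableOn ℂ f B → DifferentiableOn ℂ g B →
    (∀ z ∈ B, ‖f z‖ ≤ 1) → (∀ z ∈ B, ‖g z‖ ≤ 1) → (∀ z ∈ B, δ ≤ ‖f z‖ + ‖g z‖) →
    Measurable a → Measurable b → (∀ z ∈ B, 0 ≤ a z) → (∀ z ∈ B, 0 ≤ b z) →
    (∀ z ∈ B, ∀ ξ, ‖fderiv ℂ f z ξ‖ ≤ a z * len z ξ) →
    (∀ z ∈ B, ∀ ξ, ‖fderiv ℂ g z ξ‖ ≤ b z * len z ξ) →
    (∀ z ∈ B, ∀ t : ℝ, 0 ≤ t → t ≤ 1 →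
      a (t • z) ≤ K * ((1 - t * nm z) / (1 - nm z)) ^ (1 / 8 : ℝ) * a z) →
    (∀ z ∈ B, ∀ t : ℝ, 0 ≤ t → t ≤ 1 →
      b (t • z) ≤ K * ((1 - t * nm z) / (1 - nm z)) ^ (1 / 8 : ℝ) * b z) →
    ∃ h k : ℂ × ℂ → ℂ, DifferentiableOn ℂ h B ∧ DifferentiableOn ℂ k B ∧ ∀ z ∈ B,
      f z * h z + g z * k z = 1 ∧ ENNReal.ofReal ‖h z‖ ≤ ENNReal.ofReal C * (1 + JJ a b z) ∧
      ENNReal.ofReal ‖k z‖ ≤ ENNReal.ofReal C * (1 + JJ a b z) := by
  obtain ⟨C₁, hC₁, h2⟩ := hD2 δ hδ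
  obtain ⟨C₂, hC₂, h3⟩ := hS (max K 1) C₁ (le_max_right _ _) hC₁
  refine ⟨C₁ + 256 * C₁ + C₂, by positivity, ?_⟩
  intro f g a b hf hg hf1 hg1 hδfg ham hbm ha hb hfa hgb hra hrb
  obtain ⟨Ψ, h₀, k₀, hΨ, hh₀, hk₀, hbd, hΨd, hdh, hdk⟩ := h2 f g hf hg hf1 hg1 hδfg
  set a' : ℂ × ℂ → ℝ := fun z => min (a z) 1 with ha'
  set b' : ℂ × ℂ → ℝ := fun z => min (b z) 1 with hb'
  have ha01 : ∀ z ∈ B, 0 ≤ a' z ∧ a' z ≤ 1 := fun z hz =>
    ⟨le_min (ha z hz) zero_le_one, min_le_right _ _⟩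
  have hb01 : ∀ z ∈ B, 0 ≤ b' z ∧ b' z ≤ 1 := fun z hz =>
    ⟨le_min (hb z hz) zero_le_one, min_le_right _ _⟩
  have hfa' : ∀ z ∈ B, ∀ ξ, ‖fderiv ℂ f z ξ‖ ≤ a' z * len z ξ := by
    intro z hz ξ
    have h4 := hSP f hf hf1 z hz ξ
    have h5 := hfa z hz ξ
    rcases le_total (a z) 1 with h6 | h6
    · show _ ≤ min (a z) 1 * len z ξ
      rw [min_eq_left h6]; exact h5
    · show _ ≤ min (a z) 1 * len z ξ
      rw [min_eq_right h6, one_mul]; exact h4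
  have hgb' : ∀ z ∈ B, ∀ ξ, ‖fderiv ℂ g z ξ‖ ≤ b' z * len z ξ := by
    intro z hz ξ
    have h4 := hSP g hg hg1 z hz ξ
    have h5 := hgb z hz ξ
    rcases le_total (b z) 1 with h6 | h6
    · show _ ≤ min (b z) 1 * len z ξ
      rw [min_eq_left h6]; exact h5
    · show _ ≤ min (b z) 1 * len z ξ
      rw [min_eq_right h6, one_mul]; exact h4
  have hJ : ∀ z, JJ a' b' z ≤ JJ a b z := fun z =>
    JJ_mono z (fun w hw => (ha01 w hw).1) (fun w hw => (hb01 w hw).1) (fun w _ => min_le_left _ _)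
      (fun w _ => min_le_left _ _)
  have hΨd' : ∀ z ∈ B, ∀ ξ, ‖fderiv ℝ Ψ z ξ‖ ≤ C₁ * ((a' z + b' z) * len z ξ) := by
    intro z hz ξ
    refine (hΨd z hz ξ).trans (mul_le_mul_of_nonneg_left ?_ hC₁.le)
    rw [add_mul]
    exact add_le_add (hfa' z hz ξ) (hgb' z hz ξ)
  have hvk := h3 f Ψ a' b' hf hΨ hf1 (fun z hz => (hbd z hz).1) ha01 hb01 hfa' hΨd'
    (fun z hz t _ ht1 => reg_min hz (ha z hz) ht1 (hra z hz t ‹_› ht1))
    (fun z hz t _ ht1 => reg_min hz (hb z hz) ht1 (hrb z hz t ‹_› ht1))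
  have hconv : ∀ z, ∫⁻ w in B, ENNReal.ofReal (C₂ * (a' w * (a' w + b' w)) * ker z w) =
      ENNReal.ofReal C₂ * JJ a' b' z := by
    intro z
    unfold JJ
    rw [← lintegral_const_mul' _ _ ENNReal.ofReal_ne_top]
    refine lintegral_congr fun w => ?_
    rw [← ENNReal.ofReal_mul hC₂.le, mul_assoc]
  have hM : ∀ r : ℝ, 0 ≤ r → r < 1 → ∃ C : ℝ, ∀ z, nm z ≤ r →
      ENNReal.ofReal (C₁ + 256 * C₁ + C₂) * (1 + JJ a' b' z) ≤ ENNReal.ofReal C := by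
    intro r hr0 hr1
    obtain ⟨D, hD⟩ := h8 r hr0 hr1
    refine ⟨(C₁ + 256 * C₁ + C₂) * (1 + 2 * max D 0), fun z hz => ?_⟩
    have h9 : ENNReal.ofReal (1 + 2 * max D 0) = 1 + ENNReal.ofReal 2 * ENNReal.ofReal (max D 0) := by
      rw [ENNReal.ofReal_add (by norm_num) (by positivity), ENNReal.ofReal_one,
        ENNReal.ofReal_mul (by norm_num)]
    rw [ENNReal.ofReal_mul (by positivity), h9]
    refine mul_le_mul_right ?_ _
    refine add_le_add le_rfl ?_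
    have h4 : JJ a' b' z ≤ ∫⁻ w in B, ENNReal.ofReal 2 * ENNReal.ofReal (ker z w) := by
      refine setLIntegral_mono' B_meas fun w hw => ?_
      rw [← ENNReal.ofReal_mul (by norm_num)]
      refine ENNReal.ofReal_le_ofReal (mul_le_mul_of_nonneg_right ?_ (ker_nonneg _ _))
      have h5 := ha01 w hw
      have h6 := hb01 w hw
      nlinarith
    refine h4.trans ?_
    rw [lintegral_const_mul' _ _ ENNReal.ofReal_ne_top]
    refine mul_le_mul_right ?_ _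
    exact (hD z hz).trans (ENNReal.ofReal_le_ofReal (le_max_left _ _))
  obtain ⟨h, k, hh, hk, hhk⟩ := hD4 _ hM f g hf hg (fun m => by
    obtain ⟨v, hv1, hv2, hv3⟩ := hvk m
    obtain ⟨hs, ks, M, hhs, hks, hs1⟩ := hD1 δ (rad m) f g hδ (rad_nonneg m) (rad_lt_one m) hf hg
      hf1 hg1 hδfg
    obtain ⟨h, k, hh, hk, hhk⟩ := D3 hC (e := fun w => C₂ * (a' w * (a' w + b' w)))
      (R := 256 * C₁) (rad_nonneg m) (rad_lt_one m).le (by positivity) hC₁.le hf hg hf1 hg1 hh₀ hk₀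
      hbd hdh hdk hv1 hv2
      (((ham.min measurable_const).mul
        ((ham.min measurable_const).add (hbm.min measurable_const))).const_mul C₂)
      (fun z hz => by
        have h5 := ha01 z hz
        have h6 := hb01 z hz
        have : 0 ≤ a' z + b' z := by linarith
        exact mul_nonneg hC₂.le (mul_nonneg h5.1 this)) hv3 hhs hks hs1
    refine ⟨h, k, hh, hk, fun z hz => ⟨(hhk z hz).1, ?_, ?_⟩⟩
    · refine (hhk z hz).2.1.trans ?_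
      rw [hconv z, mul_add, mul_one]
      refine add_le_add (ENNReal.ofReal_le_ofReal (by linarith)) (mul_le_mul_left ?_ _)
      exact ENNReal.ofReal_le_ofReal (by linarith)
    · refine (hhk z hz).2.2.trans ?_
      rw [hconv z, mul_add, mul_one]
      refine add_le_add (ENNReal.ofReal_le_ofReal (by linarith)) (mul_le_mul_left ?_ _)
      exact ENNReal.ofReal_le_ofReal (by linarith))
  refine ⟨h, k, hh, hk, fun z hz => ⟨(hhk z hz).1, ?_, ?_⟩⟩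
  · exact (hhk z hz).2.1.trans (mul_le_mul_right (add_le_add le_rfl (hJ z)) _)
  · exact (hhk z hz).2.2.trans (mul_le_mul_right (add_le_add le_rfl (hJ z)) _)

/-- the regularity of radial majorants -/
theorem reg_rad {ω : ℝ → ℝ} {C : ℝ} (hC : 0 ≤ C) (hω0 : ∀ t, 0 ≤ ω t)
    (hω : ∀ s t : ℝ, 0 < t → t ≤ s → s ≤ 1 → ω s ≤ C * (s / t) ^ (1 / 8 : ℝ) * ω t)
    {z : ℂ × ℂ} (hz : z ∈ B) {t : ℝ} (ht0 : 0 ≤ t) (ht1 : t ≤ 1) :
    ω (1 - N (t • z)) ≤ C * ((1 - t * nm z) / (1 - nm z)) ^ (1 / 8 : ℝ) * ω (1 - N z) := by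
  have hx := x_pos hz
  have hr := r_pos hz ht1
  have hn := nm_nonneg z
  have hNz : N z = nm z ^ 2 := (nm_sq z).symm
  have h1 : 0 < 1 - N z := sub_pos.2 hz
  have ht2 : t ^ 2 ≤ 1 := pow_le_one₀ ht0 ht1
  have h2 : 1 - N z ≤ 1 - N (t • z) := by
    rw [N_smul]
    have := N_nonneg z
    nlinarith
  have h3 : 1 - N (t • z) ≤ 1 := by
    have := N_nonneg (t • z)
    linarith
  refine (hω _ _ h1 h2 h3).trans ?_
  refine mul_le_mul_of_nonneg_right (mul_le_mul_of_nonneg_left ?_ hC) (hω0 _)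
  refine Real.rpow_le_rpow (div_nonneg (h1.le.trans h2) h1.le) ?_ (by norm_num)
  rw [div_le_div_iff₀ h1 hx, N_smul, hNz]
  have h4 : (1 - t * nm z) * (1 - nm z ^ 2) - (1 - t ^ 2 * nm z ^ 2) * (1 - nm z) =
      (1 - t * nm z) * (1 - nm z) * ((1 - t) * nm z) := by ring
  have h5 : 0 ≤ (1 - t * nm z) * (1 - nm z) * ((1 - t) * nm z) :=
    mul_nonneg (mul_nonneg hr.le hx.le) (mul_nonneg (by linarith) hn)
  linarith

theorem lint_min {ω σ : ℝ → ℝ} (hω0 : ∀ t, 0 ≤ ω t) (hσ0 : ∀ t, 0 ≤ σ t) :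
    ∫⁻ t in Ioo (0 : ℝ) 1, ENNReal.ofReal (min (ω t) 1 * (min (ω t) 1 + min (σ t) 1) / t) ≤
      ∫⁻ t in Ioo (0 : ℝ) 1, ENNReal.ofReal (ω t * (ω t + σ t) / t) := by
  refine setLIntegral_mono' measurableSet_Ioo fun t ht => ENNReal.ofReal_le_ofReal ?_
  refine div_le_div_of_nonneg_right ?_ ht.1.le
  have h1 : 0 ≤ min (ω t) 1 := le_min (hω0 t) zero_le_one
  have h2 : 0 ≤ min (σ t) 1 := le_min (hσ0 t) zero_le_one
  have h3 : min (ω t) 1 ≤ ω t := min_le_left _ _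
  have h4 : min (σ t) 1 ≤ σ t := min_le_left _ _
  exact mul_le_mul h3 (by linarith) (by linarith) (hω0 t)

/-- radial majorants -/
theorem rad_of (hmain : ∀ δ K : ℝ, 0 < δ → ∃ C : ℝ, 0 < C ∧ ∀ (f g : ℂ × ℂ → ℂ) (a b : ℂ × ℂ → ℝ),
    DifferentiableOn ℂ f B → DifferentiableOn ℂ g B →
    (∀ z ∈ B, ‖f z‖ ≤ 1) → (∀ z ∈ B, ‖g z‖ ≤ 1) → (∀ z ∈ B, δ ≤ ‖f z‖ + ‖g z‖) →
    Measurable a → Measurable b → (∀ z ∈ B, 0 ≤ a z) → (∀ z ∈ B, 0 ≤ b z) →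
    (∀ z ∈ B, ∀ ξ, ‖fderiv ℂ f z ξ‖ ≤ a z * len z ξ) →
    (∀ z ∈ B, ∀ ξ, ‖fderiv ℂ g z ξ‖ ≤ b z * len z ξ) →
    (∀ z ∈ B, ∀ t : ℝ, 0 ≤ t → t ≤ 1 →
      a (t • z) ≤ K * ((1 - t * nm z) / (1 - nm z)) ^ (1 / 8 : ℝ) * a z) →
    (∀ z ∈ B, ∀ t : ℝ, 0 ≤ t → t ≤ 1 →
      b (t • z) ≤ K * ((1 - t * nm z) / (1 - nm z)) ^ (1 / 8 : ℝ) * b z) →
    ∃ h k : ℂ × ℂ → ℂ, DifferentiableOn ℂ h B ∧ DifferentiableOn ℂ k B ∧ ∀ z ∈ B,
      f z * h z + g z * k z = 1 ∧ ENNReal.ofReal ‖h z‖ ≤ ENNReal.ofReal C * (1 + JJ a b z) ∧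
      ENNReal.ofReal ‖k z‖ ≤ ENNReal.ofReal C * (1 + JJ a b z))
    (h9 : C9) (hE : E1) (hSP : SP) (δ : ℝ) (hδ : 0 < δ) :
    ∃ C : ℝ, 0 < C ∧ ∀ (f g : ℂ × ℂ → ℂ) (ω σ : ℝ → ℝ),
    DifferentiableOn ℂ f B → DifferentiableOn ℂ g B →
    (∀ z ∈ B, ‖f z‖ ≤ 1) → (∀ z ∈ B, ‖g z‖ ≤ 1) → (∀ z ∈ B, δ ≤ ‖f z‖ + ‖g z‖) →
    Monotone ω → Monotone σ → (∀ t, 0 ≤ ω t) → (∀ t, 0 ≤ σ t) →
    (∀ z ∈ B, ∀ ξ, ‖fderiv ℂ f z ξ‖ ≤ ω (1 - N z) * len z ξ) →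
    (∀ z ∈ B, ∀ ξ, ‖fderiv ℂ g z ξ‖ ≤ σ (1 - N z) * len z ξ) →
    ∃ h k : ℂ × ℂ → ℂ, DifferentiableOn ℂ h B ∧ DifferentiableOn ℂ k B ∧ ∀ z ∈ B,
      f z * h z + g z * k z = 1 ∧ ENNReal.ofReal ‖h z‖ ≤ ENNReal.ofReal C *
        (1 + ∫⁻ t in Ioo (0 : ℝ) 1, ENNReal.ofReal (ω t * (ω t + σ t) / t)) ∧
      ENNReal.ofReal ‖k z‖ ≤ ENNReal.ofReal C *
        (1 + ∫⁻ t in Ioo (0 : ℝ) 1, ENNReal.ofReal (ω t * (ω t + σ t) / t)) := by
  obtain ⟨CE, hCE, hE⟩ := hE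
  obtain ⟨C9, hC9, h9⟩ := h9
  obtain ⟨C, hC, hmain⟩ := hmain δ CE hδ
  refine ⟨C * (1 + 2 * C9 * (1 + CE)), by positivity, ?_⟩
  intro f g ω σ hf hg hf1 hg1 hδfg hωm hσm hω0 hσ0 hfa hgb
  obtain ⟨ω', σ', hω'm, hσ'm, hω'b, hσ'b, hle, hreg, hint⟩ := hE (fun t => min (ω t) 1)
    (fun t => min (σ t) 1) (fun s t hst => min_le_min (hωm hst) le_rfl)
    (fun s t hst => min_le_min (hσm hst) le_rfl)
    (fun t => ⟨le_min (hω0 t) zero_le_one, min_le_right _ _⟩)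
    (fun t => ⟨le_min (hσ0 t) zero_le_one, min_le_right _ _⟩)
  have hNm : Measurable (fun z : ℂ × ℂ => 1 - N z) := by
    exact (measurable_const.sub N_continuous.measurable)
  have hdom : ∀ (F : ℂ × ℂ → ℂ) (τ τ' : ℝ → ℝ), DifferentiableOn ℂ F B → (∀ z ∈ B, ‖F z‖ ≤ 1) →
      (∀ z ∈ B, ∀ ξ, ‖fderiv ℂ F z ξ‖ ≤ τ (1 - N z) * len z ξ) →
      (∀ t, 0 < t → t ≤ 1 → min (τ t) 1 ≤ τ' t) →
      ∀ z ∈ B, ∀ ξ, ‖fderiv ℂ F z ξ‖ ≤ τ' (1 - N z) * len z ξ := by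
    intro F τ τ' hF hF1 hFτ hττ z hz ξ
    have h1 : min (τ (1 - N z)) 1 ≤ τ' (1 - N z) :=
      hττ _ (sub_pos.2 hz) (by have := N_nonneg z; linarith)
    refine le_trans ?_ (mul_le_mul_of_nonneg_right h1 (len_nonneg _ _))
    have h4 := hSP F hF hF1 z hz ξ
    have h5 := hFτ z hz ξ
    rcases le_total (τ (1 - N z)) 1 with h6 | h6
    · rw [min_eq_left h6]; exact h5
    · rw [min_eq_right h6, one_mul]; exact h4
  obtain ⟨h, k, hh, hk, hhk⟩ := hmain f g (fun z => ω' (1 - N z)) (fun z => σ' (1 - N z)) hf hg hf1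
    hg1 hδfg (hω'm.measurable.comp hNm) (hσ'm.measurable.comp hNm) (fun z _ => (hω'b _).1)
    (fun z _ => (hσ'b _).1)
    (hdom f ω ω' hf hf1 hfa (fun t h0 h1 => (hle t h0 h1).1))
    (hdom g σ σ' hg hg1 hgb (fun t h0 h1 => (hle t h0 h1).2))
    (fun z hz t ht0 ht1 => reg_rad hCE.le (fun t => (hω'b t).1)
      (fun s t h1 h2 h3 => (hreg s t h1 h2 h3).1) hz ht0 ht1)
    (fun z hz t ht0 ht1 => reg_rad hCE.le (fun t => (hσ'b t).1)
      (fun s t h1 h2 h3 => (hreg s t h1 h2 h3).2) hz ht0 ht1)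
  have hJ : ∀ z ∈ B, JJ (fun z => ω' (1 - N z)) (fun z => σ' (1 - N z)) z ≤
      ENNReal.ofReal (2 * C9 * (1 + CE)) *
        (1 + ∫⁻ t in Ioo (0 : ℝ) 1, ENNReal.ofReal (ω t * (ω t + σ t) / t)) := by
    intro z hz
    set I := ∫⁻ t in Ioo (0 : ℝ) 1, ENNReal.ofReal (ω t * (ω t + σ t) / t) with hI
    have h1 := h9 (fun t => ω' t * (ω' t + σ' t) / 2) (fun s t hst => by
      have := hω'm hst
      have := hσ'm hst
      have := (hω'b s).1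
      have := (hσ'b s).1
      have : ω' s * (ω' s + σ' s) ≤ ω' t * (ω' t + σ' t) :=
        mul_le_mul (by linarith) (by linarith) (by linarith) (by linarith)
      show ω' s * (ω' s + σ' s) / 2 ≤ ω' t * (ω' t + σ' t) / 2
      linarith) (fun t => by
        have h1 := hω'b t
        have h2 := hσ'b t
        have : 0 ≤ ω' t + σ' t := by linarith
        have := mul_nonneg h1.1 this
        show 0 ≤ ω' t * (ω' t + σ' t) / 2
        linarith) (fun t => by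
        have h1 := hω'b t
        have h2 := hσ'b t
        show ω' t * (ω' t + σ' t) / 2 ≤ 1
        nlinarith) z hz
    have h2 : JJ (fun z => ω' (1 - N z)) (fun z => σ' (1 - N z)) z = ENNReal.ofReal 2 *
        ∫⁻ w in B, ENNReal.ofReal (ω' (1 - N w) * (ω' (1 - N w) + σ' (1 - N w)) / 2 * ker z w) := by
      unfold JJ
      rw [← lintegral_const_mul' _ _ ENNReal.ofReal_ne_top]
      refine lintegral_congr fun w => ?_
      rw [← ENNReal.ofReal_mul (by norm_num)]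
      congr 1
      ring
    rw [h2]
    have h3 : ∫⁻ t in Ioo (0 : ℝ) 1, ENNReal.ofReal (ω' t * (ω' t + σ' t) / 2 / t) ≤
        ∫⁻ t in Ioo (0 : ℝ) 1, ENNReal.ofReal (ω' t * (ω' t + σ' t) / t) := by
      refine setLIntegral_mono' measurableSet_Ioo fun t ht => ENNReal.ofReal_le_ofReal ?_
      refine div_le_div_of_nonneg_right ?_ ht.1.le
      have h1 := hω'b t
      have h2 := hσ'b t
      have : 0 ≤ ω' t + σ' t := by linarith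
      have := mul_nonneg h1.1 this
      linarith
    have h4 := hint.trans (mul_le_mul_right (add_le_add le_rfl (lint_min hω0 hσ0)) _)
    calc ENNReal.ofReal 2 * _ ≤ ENNReal.ofReal 2 * (ENNReal.ofReal C9 *
          (1 + ENNReal.ofReal CE * (1 + I))) :=
        mul_le_mul_right (h1.trans (mul_le_mul_right (add_le_add le_rfl (h3.trans h4)) _)) _
      _ ≤ ENNReal.ofReal 2 * (ENNReal.ofReal C9 * ((1 + I) + ENNReal.ofReal CE * (1 + I))) := by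
        refine mul_le_mul_right (mul_le_mul_right (add_le_add le_self_add le_rfl) _) _
      _ = ENNReal.ofReal (2 * C9 * (1 + CE)) * (1 + I) := by
        rw [ENNReal.ofReal_mul (by positivity), ENNReal.ofReal_mul (by norm_num),
          ENNReal.ofReal_add (by norm_num) hCE.le, ENNReal.ofReal_one]
        ring
  have hfin : ∀ z ∈ B, ENNReal.ofReal C *
      (1 + JJ (fun z => ω' (1 - N z)) (fun z => σ' (1 - N z)) z) ≤
      ENNReal.ofReal (C * (1 + 2 * C9 * (1 + CE))) *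
        (1 + ∫⁻ t in Ioo (0 : ℝ) 1, ENNReal.ofReal (ω t * (ω t + σ t) / t)) := by
    intro z hz
    rw [ENNReal.ofReal_mul hC.le, mul_assoc]
    refine mul_le_mul_right ?_ _
    rw [ENNReal.ofReal_add (by norm_num) (by positivity), ENNReal.ofReal_one, add_mul, one_mul]
    exact add_le_add le_self_add (hJ z hz)
  exact ⟨h, k, hh, hk, fun z hz => ⟨(hhk z hz).1, (hhk z hz).2.1.trans (hfin z hz),
    (hhk z hz).2.2.trans (hfin z hz)⟩⟩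

end Pool.Agent.N290.RI
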